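import Pool.Agent.H207.BT.Stm6
import Pool.Agent.H356.BT207.REAL1

/-!
# Project BT, with times: the real estimates in the recursion, with a bound for `N`
-/

set_option autoImplicit false

namespace Pool.Agent.H956.BT207

open Pool.Agent.H207.BT Pool.Agent.H356.BT207

/-- the bound for `N` in the first case -/
theorem REAL1T_log1 {Y δ μ a1 c₀ L u : ℝ} {N : ℕ} (hμ : 1 < μ) (ha1 : 0 < a1) (hc₀ : 0 < c₀)
    (hL0 : 0 < L) (hu0 : 0 < u) (hu1 : u ≤ 1) (hδ : 0 < δ)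
    (hY : c₀ * μ ^ N * (δ * u / L) ≤ Y) (hmu : a1 ≤ μ ^ N * u ^ 64)
    (k7 : u * μ ≤ (c₀ / L) ^ 64 * a1 ^ 2) :
    (N : ℝ) + 1 ≤ 64 / Real.log μ * Real.log (Y / δ) := by
  have hμ0 : 0 < μ := by linarith
  have hlog : 0 < Real.log μ := Real.log_pos hμ
  obtain ⟨W, hW⟩ : ∃ W, W = μ ^ N := ⟨_, rfl⟩
  have hW1 : 1 ≤ W := by rw [hW]; exact one_le_pow₀ hμ.le
  obtain ⟨b, hb⟩ : ∃ b, b = c₀ / L := ⟨_, rfl⟩
  have hb0 : 0 < b := by rw [hb]; positivity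
  rw [← hW] at hY hmu
  rw [← hb] at k7
  have hW0 : 0 < W := by linarith
  have ht : b * W * u ≤ Y / δ := by
    rw [le_div_iff₀ hδ]
    refine le_trans (le_of_eq ?_) hY
    rw [hb]
    ring
  have ht0 : 0 < b * W * u := by positivity
  have h64 : u ^ 64 ≤ u := by
    have := pow_le_pow_of_le_one hu0.le hu1 (show 1 ≤ 64 by norm_num)
    rwa [pow_one] at this
  have h1 : a1 ≤ W * u := hmu.trans (mul_le_mul_of_nonneg_left h64 hW0.le)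
  have h2 : μ ≤ b ^ 64 * a1 * W := by
    have h3 : u * μ ≤ u * (b ^ 64 * a1 * W) := by
      calc u * μ ≤ b ^ 64 * a1 ^ 2 := k7
        _ = b ^ 64 * a1 * a1 := by ring
        _ ≤ b ^ 64 * a1 * (W * u) := mul_le_mul_of_nonneg_left h1 (by positivity)
        _ = u * (b ^ 64 * a1 * W) := by ring
    exact le_of_mul_le_mul_left h3 hu0
  have h4 : μ ^ (N + 1) ≤ (b * W * u) ^ 64 := by
    have h5 : W ^ 2 ≤ W ^ 63 := pow_le_pow_right₀ hW1 (by norm_num)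
    calc μ ^ (N + 1) = W * μ := by rw [pow_succ, hW]
      _ ≤ W * (b ^ 64 * a1 * W) := mul_le_mul_of_nonneg_left h2 hW0.le
      _ = b ^ 64 * a1 * W ^ 2 := by ring
      _ ≤ b ^ 64 * a1 * W ^ 63 := mul_le_mul_of_nonneg_left h5 (by positivity)
      _ = b ^ 64 * W ^ 63 * a1 := by ring
      _ ≤ b ^ 64 * W ^ 63 * (W * u ^ 64) := mul_le_mul_of_nonneg_left hmu (by positivity)
      _ = (b * W * u) ^ 64 := by ring
  have h6 : ((N : ℝ) + 1) * Real.log μ ≤ 64 * Real.log (Y / δ) := by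
    have h7 := Real.log_le_log (by positivity) h4
    rw [Real.log_pow, Real.log_pow] at h7
    have h8 := Real.log_le_log ht0 ht
    push_cast at h7
    linarith
  rw [div_mul_eq_mul_div, le_div_iff₀ hlog]
  exact h6

/-- the bound for `N` in the second case -/
theorem REAL1T_log2 {δ δ' μ c₀ δ₁ P x u : ℝ} {N m : ℕ} (hμ : 1 < μ) (hc₀ : 0 < c₀)
    (hδ : 0 < δ) (hδ1 : δ ≤ 1) (hδ'1 : δ * u ≤ δ') (hδu : δ ≤ u)
    (hx0 : 0 < x) (hx1 : x ≤ 1) (hP : 0 < P) (hR : δ' * P ≤ 1) (hδ₁ : 0 < δ₁)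
    (F1' : c₀ * μ ^ (N + 1) ≤ x ^ m * P) (k8 : u ≤ c₀ * δ₁ ^ 4) :
    (N : ℝ) + 1 ≤ 64 / Real.log μ * Real.log (δ₁ / δ) := by
  have hμ0 : 0 < μ := by linarith
  have hlog : 0 < Real.log μ := Real.log_pos hμ
  have hxm : x ^ m ≤ 1 := pow_le_one₀ hx0.le hx1
  have h1 : c₀ * μ ^ (N + 1) ≤ P := by
    refine F1'.trans ?_
    have := mul_le_mul_of_nonneg_right hxm hP.le
    rwa [one_mul] at this
  have h2 : δ ^ 2 * P ≤ 1 := by
    refine le_trans ?_ hR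
    refine mul_le_mul_of_nonneg_right ?_ hP.le
    refine le_trans ?_ hδ'1
    nlinarith
  have h3 : μ ^ (N + 1) ≤ (δ₁ / δ) ^ 4 := by
    rw [div_pow, le_div_iff₀ (by positivity)]
    have h4 : c₀ * (μ ^ (N + 1) * δ ^ 4) ≤ c₀ * δ₁ ^ 4 := by
      calc c₀ * (μ ^ (N + 1) * δ ^ 4) = (c₀ * μ ^ (N + 1)) * δ ^ 4 := by ring
        _ ≤ P * δ ^ 4 := mul_le_mul_of_nonneg_right h1 (by positivity)
        _ = (δ ^ 2 * P) * δ ^ 2 := by ring
        _ ≤ 1 * δ ^ 2 := mul_le_mul_of_nonneg_right h2 (by positivity)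
        _ ≤ δ := by nlinarith
        _ ≤ c₀ * δ₁ ^ 4 := hδu.trans k8
    exact le_of_mul_le_mul_left h4 hc₀
  have h6 : ((N : ℝ) + 1) * Real.log μ ≤ 4 * Real.log (δ₁ / δ) := by
    have h7 := Real.log_le_log (by positivity) h3
    rw [Real.log_pow, Real.log_pow] at h7
    push_cast at h7
    linarith
  have h8 : 0 < Real.log (δ₁ / δ) := by
    have : 0 < ((N : ℝ) + 1) * Real.log μ := by positivity
    linarith
  rw [div_mul_eq_mul_div, le_div_iff₀ hlog]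
  linarith

theorem t_REAL1T : S_REAL1T := by
  intro C c μ B K₀ β δ₁ M hc hμ hμC hB hK hβ hβC hδ₁ hδ₁1
  have hB0 : 0 < B := by linarith
  have hK0 : 0 < K₀ := by linarith
  have hμ0 : 0 < μ := by linarith
  have hC0 : 0 < C := by linarith
  have hlogμ : 0 < Real.log μ := Real.log_pos hμ
  have hlogC : Real.log μ ≤ Real.log C := Real.log_le_log hμ0 hμC
  have hβ1 : β ≤ 1 / 16 := by
    have h : β * Real.log C ≤ (1 / 16) * Real.log C := by linarith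
    exact le_of_mul_le_mul_right h (by linarith)
  obtain ⟨L, hL⟩ : ∃ L, L = 2 * K₀ * B := ⟨_, rfl⟩
  have hL1 : 1 ≤ L := by rw [hL]; nlinarith
  have hL0 : 0 < L := by linarith
  obtain ⟨c₀, hc₀e⟩ : ∃ c₀, c₀ = c / B := ⟨_, rfl⟩
  have hc₀ : 0 < c₀ := by rw [hc₀e]; exact div_pos hc hB0
  obtain ⟨a1, ha1e⟩ : ∃ a1, a1 = (c₀ * L) ^ (8 * β) := ⟨_, rfl⟩
  have ha1 : 0 < a1 := by rw [ha1e]; exact Real.rpow_pos_of_pos (by positivity) _
  have hcL : 0 < c₀ / L := div_pos hc₀ hL0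
  have ha5 : 0 < (c₀ / L) ^ β := Real.rpow_pos_of_pos hcL _
  have ha6 : 0 < (c₀ / L) ^ (β / 2) := Real.rpow_pos_of_pos hcL _
  obtain ⟨κ, hκ0, q0, q1, q2, q3, q4, q5, q6, q7, q8⟩ : ∃ κ : ℝ, 0 < κ ∧ κ ≤ 1 ∧
      κ ≤ c₀ * a1 / ((2 + K₀ * B) * L) ∧ κ ≤ c₀ * (c₀ / L) ^ β * a1 / L ∧
      κ ≤ (c₀ / L) ^ (β / 2) / (B * K₀ * L) ∧ κ ≤ δ₁ / (2 + K₀ * B) ∧
      κ ≤ δ₁ ^ (M + 1) / L ∧ κ ≤ δ₁ / (B * K₀) ∧ κ ≤ (c₀ / L) ^ 64 * a1 ^ 2 / μ ∧
      κ ≤ c₀ * δ₁ ^ 4 := by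
    refine ⟨min 1 (min (c₀ * a1 / ((2 + K₀ * B) * L)) (min (c₀ * (c₀ / L) ^ β * a1 / L)
      (min ((c₀ / L) ^ (β / 2) / (B * K₀ * L)) (min (δ₁ / (2 + K₀ * B))
      (min (δ₁ ^ (M + 1) / L) (min (δ₁ / (B * K₀)) (min ((c₀ / L) ^ 64 * a1 ^ 2 / μ)
      (c₀ * δ₁ ^ 4)))))))), ?_, ?_⟩
    · refine lt_min one_pos (lt_min (by positivity) (lt_min (by positivity)
        (lt_min (by positivity) (lt_min (by positivity) (lt_min (by positivity)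
        (lt_min (by positivity) (lt_min (by positivity) (by positivity))))))))
    · have h := le_refl (min 1 (min (c₀ * a1 / ((2 + K₀ * B) * L))
        (min (c₀ * (c₀ / L) ^ β * a1 / L)
        (min ((c₀ / L) ^ (β / 2) / (B * K₀ * L)) (min (δ₁ / (2 + K₀ * B))
        (min (δ₁ ^ (M + 1) / L) (min (δ₁ / (B * K₀)) (min ((c₀ / L) ^ 64 * a1 ^ 2 / μ)
        (c₀ * δ₁ ^ 4)))))))))
      simp only [le_min_iff] at h
      exact h
  refine ⟨κ ^ (8 / β), Real.rpow_pos_of_pos hκ0 _, 64 / Real.log μ, by positivity, ?_⟩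
  intro δ δ' P N m hδ hδb hδ'1 hδ'2 hm hmM hP hPC hR H y hy
  rw [← hL] at H hy
  have hδ1 : δ ≤ 1 := hδb.le.trans (Real.rpow_le_one hκ0.le q0 (by positivity))
  obtain ⟨u, hu⟩ : ∃ u, u = δ ^ (β / 8) := ⟨_, rfl⟩
  have hu0 : 0 < u := by rw [hu]; exact Real.rpow_pos_of_pos hδ _
  have huκ : u ≤ κ := by
    have h1 : δ ^ (β / 8) ≤ (κ ^ (8 / β)) ^ (β / 8) :=
      Real.rpow_le_rpow hδ.le hδb.le (by positivity)
    rw [← Real.rpow_mul hκ0.le] at h1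
    have h2 : 8 / β * (β / 8) = 1 := by field_simp
    rw [h2, Real.rpow_one] at h1
    rw [hu]
    exact h1
  have hu1 : u ≤ 1 := huκ.trans q0
  have k1 : u * ((2 + K₀ * B) * L) ≤ c₀ * a1 := by
    rw [← le_div_iff₀ (by positivity)]; exact huκ.trans q1
  have k2 : u * L ≤ c₀ * (c₀ / L) ^ β * a1 := by
    rw [← le_div_iff₀ (by positivity)]; exact huκ.trans q2
  have k3 : u * (B * K₀ * L) ≤ (c₀ / L) ^ (β / 2) := by
    rw [← le_div_iff₀ (by positivity)]; exact huκ.trans q3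
  have k4 : u * (2 + K₀ * B) ≤ δ₁ := by
    rw [← le_div_iff₀ (by positivity)]; exact huκ.trans q4
  have k5 : u * L ≤ δ₁ ^ (M + 1) := by
    rw [← le_div_iff₀ (by positivity)]; exact huκ.trans q5
  have k6 : u * (B * K₀) ≤ δ₁ := by
    rw [← le_div_iff₀ (by positivity)]; exact huκ.trans q6
  have k7 : u * μ ≤ (c₀ / L) ^ 64 * a1 ^ 2 := by
    rw [← le_div_iff₀ (by positivity)]; exact huκ.trans q7
  have k8 : u ≤ c₀ * δ₁ ^ 4 := huκ.trans q8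
  have hδu : δ ≤ u := by
    rw [hu]
    have := Real.rpow_le_rpow_of_exponent_ge hδ hδ1 (show β / 8 ≤ 1 by linarith)
    rwa [Real.rpow_one] at this
  have e1 : δ ^ (1 + β / 8) = δ * u := by rw [REAL1_one_add hδ, hu]
  have e2 : δ ^ (1 + β) = δ * u ^ 8 := by
    rw [REAL1_one_add hδ, hu, ← REAL1_pow hδ 8 β (by push_cast; ring)]
  have e3 : δ ^ (8 * β) = u ^ 64 := by
    rw [hu, ← REAL1_pow hδ 64 (8 * β) (by push_cast; ring)]
  rw [e1] at hδ'1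
  have hδ' : 0 < δ' := lt_of_lt_of_le (mul_pos hδ hu0) hδ'1
  obtain ⟨x, hx⟩ : ∃ x, x = δ' * P / L := ⟨_, rfl⟩
  rw [← hx] at H hy
  have hx0 : 0 < x := by rw [hx]; positivity
  have hx1 : x ≤ 1 := by
    rw [hx, div_le_one hL0]
    linarith
  have hμN : 1 ≤ μ ^ N := one_le_pow₀ hμ.le
  have F1' : c₀ * μ ^ (N + 1) ≤ x ^ m * P := by
    have h2 : B * (c₀ * μ ^ (N + 1)) ≤ B * (x ^ m * P) := by
      calc B * (c₀ * μ ^ (N + 1)) = c * μ ^ (N + 1) := by rw [hc₀e]; field_simp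
        _ ≤ B * x ^ m * P := H
        _ = B * (x ^ m * P) := by ring
    exact le_of_mul_le_mul_left h2 hB0
  have F1 : c₀ * μ ^ N ≤ x ^ m * P :=
    (mul_le_mul_of_nonneg_left (pow_le_pow_right₀ hμ.le (Nat.le_succ N)) hc₀.le).trans F1'
  have hmu : a1 ≤ μ ^ N * u ^ 64 := by
    rw [ha1e, ← e3]
    refine REAL1_mu hμ hμC hβ hβC hδ hP hPC (by positivity) ?_
    -- c₀ L ≤ P ^ 2 δ
    have g1 : c₀ * (δ' / L) ≤ x ^ (m + 1) := by
      have g2 : x ^ (m + 1) = x ^ m * P * (δ' / L) := by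
        have hxe : P * (δ' / L) = x := by rw [hx]; ring
        rw [mul_assoc, hxe, pow_succ]
      rw [g2]
      refine mul_le_mul_of_nonneg_right ?_ (by positivity)
      refine le_trans ?_ F1
      nlinarith
    have g3 : c₀ * (δ' / L) ≤ x ^ 2 :=
      g1.trans (pow_le_pow_of_le_one hx0.le hx1 (by omega))
    have g4 : x ^ 2 = P ^ 2 * δ' / L * (δ' / L) := by
      rw [hx]; ring
    rw [g4] at g3
    have g5 := le_of_mul_le_mul_right g3 (by positivity : 0 < δ' / L)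
    rw [le_div_iff₀ hL0] at g5
    refine g5.trans (mul_le_mul_of_nonneg_left hδ'2 (by positivity))
  have F2' : c₀ * μ ^ N * (δ * u / L) ≤ x ^ (m + 1) := by
    have hxe : P * (δ' / L) = x := by rw [hx]; ring
    have g2 : x ^ (m + 1) = x ^ m * P * (δ' / L) := by
      rw [mul_assoc, hxe, pow_succ]
    rw [g2]
    have h1 : δ * u / L ≤ δ' / L := div_le_div_of_nonneg_right hδ'1 hL0.le
    exact mul_le_mul F1 h1 (by positivity) (by positivity)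
  have hE0 : 0 < δ₁ ^ ((1 : ℝ) / ((m : ℝ) + 1)) := Real.rpow_pos_of_pos hδ₁ _
  have hEm : (δ₁ ^ ((1 : ℝ) / ((m : ℝ) + 1))) ^ (m + 1) = δ₁ := by
    rw [← Real.rpow_natCast, ← Real.rpow_mul hδ₁.le]
    have : (1 : ℝ) / ((m : ℝ) + 1) * ((m + 1 : ℕ) : ℝ) = 1 := by
      push_cast
      field_simp
    rw [this, Real.rpow_one]
  rw [e2]
  rcases le_total x (δ₁ ^ ((1 : ℝ) / ((m : ℝ) + 1))) with hc1 | hc2
  · have hyx : y = x := by rw [hy, min_eq_left hc1]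
    rw [hyx]
    have hcase := REAL1_case1 (μN := μ ^ N) hc₀ hL1 hB hK hβ hβ1 hδ hδ1 hδ' hδ'1 hm hP hμN hx
      hx1 F1 hu hu1 hmu k1 k2 k3
    refine ⟨hx0, hcase.1, ?_, ?_, ?_⟩
    · calc x ^ (m + 1) ≤ (δ₁ ^ ((1 : ℝ) / ((m : ℝ) + 1))) ^ (m + 1) :=
            pow_le_pow_left₀ hx0.le hc1 _
        _ = δ₁ := hEm
    · exact REAL1T_log1 hμ ha1 hc₀ hL0 hu0 hu1 hδ F2' hmu k7
    · rw [← hL]
      exact hcase.2
  · have hyx : y = δ₁ ^ ((1 : ℝ) / ((m : ℝ) + 1)) := by rw [hy, min_eq_right hc2]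
    rw [hyx]
    have hlg : (N : ℝ) + 1 ≤ 64 / Real.log μ *
        Real.log ((δ₁ ^ ((1 : ℝ) / ((m : ℝ) + 1))) ^ (m + 1) / δ) := by
      rw [hEm]
      exact REAL1T_log2 hμ hc₀ hδ hδ1 hδ'1 hδu hx0 hx1 hP hR hδ₁ F1' k8
    rw [hx] at hc2
    have hcase := REAL1_case2 (M := M) hL1 hB hK hβ hβ1 hδ hδ' hδ'1 hδ'2 hm hmM hP hR hδ₁ hδ₁1 hE0
      hEm hc2 hu0 hu1 hδu k4 k5 k6
    refine ⟨hE0, hcase.1, hEm.le, hlg, ?_⟩
    rw [← hL]
    exact hcase.2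

end Pool.Agent.H956.BT207
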